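import Pool.Agent.KS6_88.EM.Dens

/-!
# MP_01fe58_nt: least prime `1 mod n` versus least `m` with `n ∣ φ(m)`

For a set of `n` of positive lower logarithmic density (and positive upper natural density) both
`m_n` and `p_n` have exact order `n log n`; so `p_n / m_n` is bounded there.
-/

set_option autoImplicit false

open Filter Topology Classical

namespace Pool.Agent.Results.MP_01fe58_nt.LogDensity

/-- `p_n`: the least prime congruent to `1` modulo `n`. -/
noncomputable def p (n : ℕ) : ℕ := sInf {q : ℕ | q.Prime ∧ q ≡ 1 [MOD n]}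

/-- `m_n`: the least positive integer `m` with `n ∣ φ(m)`. -/
noncomputable def m (n : ℕ) : ℕ := sInf {k : ℕ | 0 < k ∧ n ∣ Nat.totient k}

/-- `c n log n ≤ m_n ≤ p_n ≤ C n log n`. -/
def Comparable (c C : ℝ) (n : ℕ) : Prop :=
  c * n * Real.log n ≤ m n ∧ m n ≤ p n ∧ (p n : ℝ) ≤ C * n * Real.log n

/-- the logarithmic count `∑ 1/n` over the `n ≤ N` in the set `S`. -/
noncomputable def logCount (S : Set ℕ) (N : ℕ) : ℝ :=
  ∑ n ∈ (Finset.Icc 1 N).filter (fun n => n ∈ S), (n : ℝ)⁻¹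

open Pool.Agent.Erdos456 Pool.Agent.KS6_88.EM in
theorem mu_good_le {c C T : ℝ} {N : ℕ} {σ : ℝ} (hσ : 1 < σ) (hN : 1 ≤ N) (hT : T ≤ Real.log N) :
    mu σ (Pool.Agent.KS6_88.EM.Good c C ∩ {n | Real.log n ≤ T}) ≤ ENNReal.ofReal (logCount {n | Comparable c C n} N) := by
  refine mu_le_sum hσ _ _ ?_ ?_
  · rintro n ⟨⟨-, h1, h2⟩, h3⟩ hn
    have h3' : Real.log n ≤ T := h3
    rw [Finset.mem_filter, Finset.mem_Icc]
    refine ⟨⟨hn, ?_⟩, h1, mm_le_pn hn, h2⟩
    have hn0 : (0:ℝ) < n := by exact_mod_cast hn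
    have hN0 : (0:ℝ) < N := by exact_mod_cast hN
    have := (Real.log_le_log_iff hn0 hN0).mp (h3'.trans hT)
    exact_mod_cast this
  · intro n hn
    exact (Finset.mem_Icc.mp (Finset.mem_filter.mp hn).1).1

theorem logCount_nonneg (S : Set ℕ) (N : ℕ) : 0 ≤ logCount S N :=
  Finset.sum_nonneg fun n _ => by positivity

open Pool.Agent.Erdos456 Pool.Agent.KS6_88.EM in
theorem part_lower : ∃ c C κ : ℝ, 0 < c ∧ 0 < C ∧ 0 < κ ∧
    (∃ N₀ : ℕ, ∀ N : ℕ, N₀ ≤ N → κ * Real.log N ≤ logCount {n | Comparable c C n} N) ∧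
    (∃ δ : ℝ, 0 < δ ∧ ∀ N₀ : ℕ, ∃ N : ℕ, N₀ ≤ N ∧
      δ * N ≤ ((Finset.Icc 1 N).filter (fun n => Comparable c C n)).card) := by
  obtain ⟨c, C, κ, D, hc, hC, hκ, hD, L₀, hL₀, h⟩ := Pool.Agent.KS6_88.EM.core
  refine ⟨c, C, κ / D, hc, hC, by positivity, ?_, ?_⟩
  · refine ⟨⌈Real.exp (D * L₀)⌉₊ + 1, ?_⟩
    intro N hN
    have hN1 : 1 ≤ N := by omega
    have hN0 : (0:ℝ) < N := by exact_mod_cast hN1
    have h1 : Real.exp (D * L₀) ≤ N := by
      refine (Nat.le_ceil _).trans ?_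
      exact_mod_cast (by omega : ⌈Real.exp (D * L₀)⌉₊ ≤ N)
    have h2 : D * L₀ ≤ Real.log N := by
      rw [Real.le_log_iff_exp_le hN0]; exact h1
    have h3 : L₀ ≤ Real.log N / D := by rw [le_div_iff₀ hD]; linarith
    have hL0 : 0 < Real.log N / D := by linarith
    have hσ : 1 < 1 + 1 / (2 * (Real.log N / D)) := by
      have : 0 < 1 / (2 * (Real.log N / D)) := by positivity
      linarith
    have h4 := (h _ h3).trans (mu_good_le (c := c) (C := C) hσ hN1
      (T := D * (Real.log N / D)) (le_of_eq (by field_simp)))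
    rw [ENNReal.ofReal_le_ofReal_iff (logCount_nonneg _ _)] at h4
    calc κ / D * Real.log N = κ * (Real.log N / D) := by ring
      _ ≤ _ := h4
  · by_contra hcon
    push Not at hcon
    have hT : Tendsto (fun N : ℕ => ((Pool.Agent.KS6_88.EM.Good c C ∩ Set.Iio N).ncard : ℝ) / (N : ℝ)) atTop (𝓝 0) := by
      rw [Metric.tendsto_atTop]
      intro ε hε
      obtain ⟨N₀, hN₀⟩ := hcon ε hε
      refine ⟨max N₀ 1, ?_⟩
      intro N hN
      have h1 := hN₀ N ((le_max_left _ _).trans hN)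
      have hN1 : 1 ≤ N := (le_max_right _ _).trans hN
      have hN0 : (0:ℝ) < N := by exact_mod_cast hN1
      rw [Real.dist_eq, sub_zero, abs_of_nonneg (by positivity), div_lt_iff₀ hN0]
      refine lt_of_le_of_lt ?_ h1
      have h2 : Pool.Agent.KS6_88.EM.Good c C ∩ Set.Iio N ⊆ ((Finset.Icc 1 N).filter (fun n => Comparable c C n) : Finset ℕ) := by
        rintro n ⟨⟨h3, h4, h5⟩, h6⟩
        have h6' : n < N := h6
        rw [Finset.mem_coe, Finset.mem_filter, Finset.mem_Icc]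
        exact ⟨⟨h3, h6'.le⟩, h4, mm_le_pn h3, h5⟩
      have h3 := Set.ncard_le_ncard h2 (Finset.finite_toSet _)
      rw [Set.ncard_coe_finset] at h3
      exact_mod_cast h3
    obtain ⟨K, hK, hz⟩ := mu_density_zero hT (κ / 2) (by positivity)
    set L := max L₀ (2 * K / κ + 1) with hL
    have hLa : L₀ ≤ L := le_max_left _ _
    have hLb : 2 * K / κ + 1 ≤ L := le_max_right _ _
    have hL1 : 1 ≤ L := hL₀.trans hLa
    have h1 := ((h L hLa).trans (mu_mono _ Set.inter_subset_left)).trans (hz L hL1)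
    rw [ENNReal.ofReal_le_ofReal_iff (by positivity)] at h1
    have h2 : 2 * K / κ < L := by linarith
    rw [div_lt_iff₀ hκ] at h2
    linarith

open Pool.Agent.Erdos456 Pool.Agent.KS6_88.EM in
theorem part_upper (ε : ℝ) (hε : 0 < ε) : ∃ c : ℝ, 0 < c ∧ ∃ N₀ : ℕ, ∀ N : ℕ, N₀ ≤ N →
    logCount {n | (m n : ℝ) < c * n * Real.log n} N ≤ ε * Real.log N := by
  obtain ⟨c, hc, L₀, hL₀, h⟩ := bad_set (ε / 2) (by positivity)
  refine ⟨c, hc, ⌈Real.exp L₀⌉₊ + 1, ?_⟩
  intro N hN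
  have hN1 : 1 ≤ N := by omega
  have hN0 : (0:ℝ) < N := by exact_mod_cast hN1
  have h1 : Real.exp L₀ ≤ N := by
    refine (Nat.le_ceil _).trans ?_
    exact_mod_cast (by omega : ⌈Real.exp L₀⌉₊ ≤ N)
  have h2 : L₀ ≤ Real.log N := by
    rw [Real.le_log_iff_exp_le hN0]; exact h1
  set L := Real.log N with hL
  have hL0 : 0 < L := by linarith
  have h3 := h L h2
  have h4 : ENNReal.ofReal (logCount {n | (m n : ℝ) < c * n * Real.log n} N / 2) ≤
      mu (1 + 1 / (2 * L)) (Bd c L) := by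
    unfold logCount
    rw [Finset.sum_div, ENNReal.ofReal_sum_of_nonneg (fun n _ => by positivity)]
    unfold mu
    refine le_trans ?_ (ENNReal.sum_le_tsum ((Finset.Icc 1 N).filter
      (fun n => n ∈ {n | (m n : ℝ) < c * n * Real.log n})))
    apply Finset.sum_le_sum
    intro n hn
    rw [Finset.mem_filter, Finset.mem_Icc] at hn
    obtain ⟨⟨hn1, hn2⟩, hn3⟩ := hn
    have hn3' : (m n : ℝ) < c * n * Real.log n := hn3
    have hn0 : (0:ℝ) < n := by exact_mod_cast hn1
    have hlog : Real.log n ≤ L := Real.log_le_log hn0 (by exact_mod_cast hn2)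
    have hmem : n ∈ Bd c L := by
      refine ⟨hn1, ?_⟩
      show (m n : ℝ) ≤ c * n * L
      exact hn3'.le.trans (by gcongr)
    rw [Set.indicator_of_mem hmem]
    unfold zp
    apply ENNReal.ofReal_le_ofReal
    rw [neg_add, Real.rpow_add hn0, Real.rpow_neg_one, div_eq_mul_inv]
    apply mul_le_mul_of_nonneg_left _ (by positivity)
    rw [Real.rpow_def_of_pos hn0]
    have h5 : -(1 / 2) ≤ Real.log n * -(1 / (2 * L)) := by
      have : Real.log n * (1 / (2 * L)) ≤ 1 / 2 := by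
        rw [mul_one_div, div_le_div_iff₀ (by positivity) (by norm_num)]
        linarith
      linarith
    refine le_trans ?_ (Real.exp_le_exp.mpr h5)
    have := Real.add_one_le_exp (-(1 / 2) : ℝ)
    norm_num at this ⊢
    linarith
  have h5 := h4.trans h3
  rw [ENNReal.ofReal_le_ofReal_iff (by positivity)] at h5
  linarith

/-- **Main theorem.** (1) For suitable `c, C > 0` the set of `n` with
`c n log n ≤ m_n ≤ p_n ≤ C n log n` has positive lower logarithmic density and positive upper natural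
density. (2) There are `C, κ > 0` such that `{n : p_n ≤ C m_n}` has lower logarithmic density at
least `κ` and positive upper natural density. (3) For every `ε > 0` there is `c > 0` with
`m_n ≥ c n log n` outside a set of upper logarithmic density at most `ε`. (4) There is `κ > 0` such
that every set `S` with `p_n / m_n → ∞` along `S` has upper logarithmic density at most `1 - κ`. (5) No
set of natural density `1` has `p_n / m_n → ∞` along it. -/
theorem result :
    (∃ c C κ : ℝ, 0 < c ∧ 0 < C ∧ 0 < κ ∧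
      (∃ N₀ : ℕ, ∀ N : ℕ, N₀ ≤ N → κ * Real.log N ≤ logCount {n | Comparable c C n} N) ∧
      (∃ δ : ℝ, 0 < δ ∧ ∀ N₀ : ℕ, ∃ N : ℕ, N₀ ≤ N ∧
        δ * N ≤ ((Finset.Icc 1 N).filter (fun n => Comparable c C n)).card)) ∧
    (∃ C κ : ℝ, 0 < C ∧ 0 < κ ∧
      (∃ N₀ : ℕ, ∀ N : ℕ, N₀ ≤ N →
        κ * Real.log N ≤ logCount {n | (p n : ℝ) ≤ C * m n} N) ∧
      (∃ δ : ℝ, 0 < δ ∧ ∀ N₀ : ℕ, ∃ N : ℕ, N₀ ≤ N ∧
        δ * N ≤ ((Finset.Icc 1 N).filter (fun n => (p n : ℝ) ≤ C * m n)).card)) ∧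
    (∀ ε : ℝ, 0 < ε → ∃ c : ℝ, 0 < c ∧ ∃ N₀ : ℕ, ∀ N : ℕ, N₀ ≤ N →
      logCount {n | (m n : ℝ) < c * n * Real.log n} N ≤ ε * Real.log N) ∧
    (∃ κ : ℝ, 0 < κ ∧ ∀ S : Set ℕ,
      Tendsto (fun n : ℕ => (p n : ℝ) / (m n : ℝ)) (atTop ⊓ 𝓟 S) atTop →
      ∃ N₀ : ℕ, ∀ N : ℕ, N₀ ≤ N → logCount S N ≤ (1 - κ) * Real.log N) ∧
    ¬ (∃ S : Set ℕ,
      Tendsto (fun N : ℕ => ((S ∩ Set.Iio N).ncard : ℝ) / (N : ℝ)) atTop (𝓝 1) ∧
      Tendsto (fun n : ℕ => (p n : ℝ) / (m n : ℝ)) (atTop ⊓ 𝓟 S) atTop) := by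
  obtain ⟨c, C, κ, hc, hC, hκ, ⟨N₁, h1⟩, δ, hδ, h2⟩ := part_lower
  have hcmp : ∀ n : ℕ, Comparable c C n → (p n : ℝ) ≤ C / c * m n := by
    rintro n ⟨ha, -, hb⟩
    calc (p n : ℝ) ≤ C * n * Real.log n := hb
      _ = C / c * (c * n * Real.log n) := by field_simp
      _ ≤ C / c * m n := by gcongr
  have hmon : ∀ {S T : Set ℕ}, S ⊆ T → ∀ N, logCount S N ≤ logCount T N := by
    intro S T hST N
    apply Finset.sum_le_sum_of_subset_of_nonneg
    · intro n hn
      rw [Finset.mem_filter] at hn ⊢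
      exact ⟨hn.1, hST hn.2⟩
    · intro n _ _
      positivity
  refine ⟨⟨c, C, κ, hc, hC, hκ, ⟨N₁, h1⟩, δ, hδ, h2⟩, ⟨C / c, κ, by positivity, hκ,
    ⟨N₁, fun N hN => (h1 N hN).trans (hmon hcmp N)⟩, δ, hδ, ?_⟩, part_upper, ⟨κ / 2, by positivity, ?_⟩, ?_⟩
  · intro N₀
    obtain ⟨N, hN, h⟩ := h2 N₀
    refine ⟨N, hN, h.trans ?_⟩
    exact_mod_cast Finset.card_le_card (by
      intro n hn
      rw [Finset.mem_filter] at hn ⊢
      exact ⟨hn.1, hcmp n hn.2⟩)
  · intro S hS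
    have h3 := hS.eventually (eventually_gt_atTop (C / c))
    rw [eventually_inf_principal] at h3
    obtain ⟨M, hM⟩ := eventually_atTop.mp h3
    have hdis : ∀ n, M ≤ n → n ∈ S → ¬ Comparable c C n := by
      intro n hn hnS hcn
      have h4 := hM n hn hnS
      have h5 := hcmp n hcn
      rcases Nat.eq_zero_or_pos (m n) with h0 | h0
      · rw [h0] at h4
        simp only [Nat.cast_zero, div_zero] at h4
        have : 0 < C / c := by positivity
        linarith
      · have h6 : (0:ℝ) < m n := by exact_mod_cast h0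
        rw [lt_div_iff₀ h6] at h4
        linarith
    refine ⟨max N₁ (⌈Real.exp ((1 + M) / (κ / 2))⌉₊ + 1), ?_⟩
    intro N hN
    have hNa := h1 N ((le_max_left _ _).trans hN)
    have hNb : ⌈Real.exp ((1 + M) / (κ / 2))⌉₊ + 1 ≤ N := (le_max_right _ _).trans hN
    have hN0 : (0:ℝ) < N := by
      have : 0 < N := by omega
      exact_mod_cast this
    have h7 : (1 + M) / (κ / 2) ≤ Real.log N := by
      rw [Real.le_log_iff_exp_le hN0]
      refine (Nat.le_ceil _).trans ?_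
      exact_mod_cast (by omega : ⌈Real.exp ((1 + M) / (κ / 2))⌉₊ ≤ N)
    rw [div_le_iff₀ (by positivity)] at h7
    have h8 : logCount S N + logCount {n | Comparable c C n} N ≤ 1 + Real.log N + M := by
      have e1 : logCount S N ≤ ∑ n ∈ (Finset.Icc 1 N).filter (fun n => ¬ Comparable c C n),
          (n : ℝ)⁻¹ + M := by
        unfold logCount
        have e2 : (Finset.Icc 1 N).filter (fun n => n ∈ S) ⊆
            (Finset.Icc 1 N).filter (fun n => ¬ Comparable c C n) ∪ Finset.Ico 1 (M + 1) := by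
          intro n hn
          rw [Finset.mem_filter, Finset.mem_Icc] at hn
          rw [Finset.mem_union, Finset.mem_filter, Finset.mem_Icc, Finset.mem_Ico]
          by_cases h9 : M ≤ n
          · left; exact ⟨hn.1, hdis n h9 hn.2⟩
          · right; omega
        refine (Finset.sum_le_sum_of_subset_of_nonneg e2 (fun n _ _ => by positivity)).trans ?_
        have e3 := Finset.sum_union_inter (s₁ := (Finset.Icc 1 N).filter (fun n => ¬ Comparable c C n))
          (s₂ := Finset.Ico 1 (M + 1)) (f := fun n : ℕ => (n : ℝ)⁻¹)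
        have e4 : 0 ≤ ∑ n ∈ (Finset.Icc 1 N).filter (fun n => ¬ Comparable c C n) ∩ Finset.Ico 1 (M + 1),
            (n : ℝ)⁻¹ := Finset.sum_nonneg fun n _ => by positivity
        have e5 : ∑ n ∈ Finset.Ico 1 (M + 1), (n : ℝ)⁻¹ ≤ M := by
          calc ∑ n ∈ Finset.Ico 1 (M + 1), (n : ℝ)⁻¹ ≤ ∑ n ∈ Finset.Ico 1 (M + 1), (1:ℝ) := by
                apply Finset.sum_le_sum
                intro n hn
                rw [Finset.mem_Ico] at hn
                exact inv_le_one_of_one_le₀ (by exact_mod_cast hn.1)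
            _ = M := by simp
        linarith
      have e6 : ∑ n ∈ (Finset.Icc 1 N).filter (fun n => Comparable c C n), (n : ℝ)⁻¹ +
          ∑ n ∈ (Finset.Icc 1 N).filter (fun n => ¬ Comparable c C n), (n : ℝ)⁻¹ ≤
          1 + Real.log N := by
        rw [Finset.sum_filter_add_sum_filter_not]
        exact Pool.Agent.KS6_88.EM.harm_le N
      have e7 : logCount {n | Comparable c C n} N =
          ∑ n ∈ (Finset.Icc 1 N).filter (fun n => Comparable c C n), (n : ℝ)⁻¹ := rfl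
      rw [e7]
      linarith
    nlinarith
  · exact Pool.Agent.Erdos456.final_core Pool.Agent.KS6_88.EM.many

end Pool.Agent.Results.MP_01fe58_nt.LogDensity
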